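import Pool.Agent.X115.HS.Stm2

/-! Project HS (helper115), part LIM2: Duhamel's formula for the heat kernels. -/

set_option autoImplicit false

namespace Pool.Agent.X31.HS.LIM2

open MeasureTheory Set Filter Topology Real Pool.Agent.X115.HS

variable {n : ℕ}

theorem cont_x {v : X n → ℝ → ℝ} (hc : ContinuousOn (fun p : X n × ℝ => v p.1 p.2) {p | 0 ≤ p.2})
    {t : ℝ} (ht : 0 ≤ t) : Continuous fun x => v x t := by
  have h1 : Continuous fun x : X n => (x, t) := by fun_prop
  have h2 := hc.comp (s := Set.univ) h1.continuousOn (fun x _ => by simpa using ht)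
  exact continuousOn_univ.1 h2

theorem cont_t {v : X n → ℝ → ℝ} (hc : ContinuousOn (fun p : X n × ℝ => v p.1 p.2) {p | 0 ≤ p.2})
    (x : X n) (t : ℝ) : ContinuousOn (fun τ => v x τ) (Icc 0 t) := by
  have h1 : Continuous fun τ : ℝ => (x, τ) := by fun_prop
  exact hc.comp (s := Icc 0 t) h1.continuousOn (fun τ hτ => by simpa using hτ.1)

theorem lap_cont (hPROD : S_PROD) {f : X n → ℝ} (hf : ContDiff ℝ 2 f) :
    Continuous fun x => lap f x := by
  unfold lap
  exact continuous_finsetSum _ fun i _ => (hPROD n f f hf hf).2.2 i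

/-- continuity in the time variable of the integrals against a function with a Gaussian bound -/
theorem cont_int (hBD : S_BD) {v : X n → ℝ → ℝ} {a : X n → ℝ} (h : WS n v a) (x0 : X n)
    {g : X n → ℝ} (hg : Continuous g) {D σ : ℝ} (hσ : 0 < σ)
    (hb : ∀ x, |g x| ≤ D * gk σ (x - x0)) (t : ℝ) :
    ContinuousOn (fun τ => ∫ x, v x τ * g x) (Icc 0 t) := by
  obtain ⟨M, hM⟩ := h.bdd t
  have hgi : Integrable fun x : X n => gk σ (x - x0) := (hBD n σ hσ).2.2.1.comp_sub_right x0
  refine continuousOn_of_dominated (bound := fun x => |M| * (D * gk σ (x - x0))) ?_ ?_ ?_ ?_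
  · intro τ hτ
    exact ((cont_x h.cont hτ.1).mul hg).aestronglyMeasurable
  · intro τ hτ
    refine Eventually.of_forall fun x => ?_
    rw [Real.norm_eq_abs, abs_mul]
    exact mul_le_mul ((hM x τ hτ).trans (le_abs_self M)) (hb x) (abs_nonneg _) (abs_nonneg _)
  · exact (hgi.const_mul D).const_mul |M|
  · refine Eventually.of_forall fun x => ?_
    exact (cont_t h.cont x t).mul continuousOn_const

theorem integrable_v (hBD : S_BD) {v : X n → ℝ → ℝ} {a : X n → ℝ} (h : WS n v a) (x0 : X n)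
    {g : X n → ℝ} (hg : Continuous g) {D σ : ℝ} (hσ : 0 < σ)
    (hb : ∀ x, |g x| ≤ D * gk σ (x - x0)) {τ : ℝ} (hτ : 0 ≤ τ) :
    Integrable fun x => v x τ * g x := by
  obtain ⟨M, hM⟩ := h.bdd τ
  have hgi : Integrable fun x : X n => gk σ (x - x0) := (hBD n σ hσ).2.2.1.comp_sub_right x0
  refine Integrable.mono' ((hgi.const_mul D).const_mul |M|)
    ((cont_x h.cont hτ).mul hg).aestronglyMeasurable (Eventually.of_forall fun x => ?_)
  rw [Real.norm_eq_abs, abs_mul]
  exact mul_le_mul ((hM x τ ⟨hτ, le_rfl⟩).trans (le_abs_self M)) (hb x) (abs_nonneg _) (abs_nonneg _)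

theorem integrable_a (hBD : S_BD) {v : X n → ℝ → ℝ} {a : X n → ℝ} (h : WS n v a) (x0 : X n)
    (ha : ∀ s : ℝ, 0 < s → Integrable fun x => a x * gk s (x - x0))
    {g : X n → ℝ} (hg : Continuous g) {D σ : ℝ} (hσ : 0 < σ)
    (hb : ∀ x, |g x| ≤ D * gk σ (x - x0)) :
    Integrable fun x => a x * g x := by
  refine Integrable.mono' ((ha σ hσ).const_mul D)
    (h.acont.mul hg).aestronglyMeasurable (Eventually.of_forall fun x => ?_)
  rw [Real.norm_eq_abs, abs_mul, abs_of_nonneg (h.apos x)]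
  calc a x * |g x| ≤ a x * (D * gk σ (x - x0)) := mul_le_mul_of_nonneg_left (hb x) (h.apos x)
    _ = D * (a x * gk σ (x - x0)) := by ring

theorem real_duh (hCUT : S_CUT) (hPROD : S_PROD) (hBD : S_BD) {v : X n → ℝ → ℝ} {a : X n → ℝ}
    (h : WS n v a) (x0 : X n) (ha : ∀ s : ℝ, 0 < s → Integrable fun x => a x * gk s (x - x0))
    {φ : X n → ℝ} (hφ : ContDiff ℝ ((⊤ : ℕ∞) : WithTop ℕ∞) φ) {C σ : ℝ} (hσ : 0 < σ)
    (h1 : ∀ x, |φ x| ≤ C * gk σ (x - x0)) (h2 : ∀ x, |lap φ x| ≤ C * gk σ (x - x0))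
    (h3 : ∀ x i, |pd i φ x| ≤ C * gk σ (x - x0)) {t : ℝ} (ht : 0 ≤ t) :
    ∫ x, v x t * φ x = (∫ x, a x * φ x) * Real.sin t -
      ∫ τ in (0 : ℝ)..t, Real.sin (t - τ) * ∫ x, v x τ * lap φ x := by
  obtain ⟨χ, K, hχ⟩ := hCUT n
  have hgi : Integrable fun x : X n => gk σ (x - x0) := (hBD n σ hσ).2.2.1.comp_sub_right x0
  have hgp : ∀ x : X n, 0 < gk σ x := (hBD n σ hσ).2.1
  have hC : 0 ≤ C := by
    by_contra hcon
    push Not at hcon
    have e1 := h1 x0
    have e2 := hgp (x0 - x0)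
    have e3 : C * gk σ (x0 - x0) < 0 := mul_neg_of_neg_of_pos hcon e2
    linarith [abs_nonneg (φ x0)]
  have h2le : (2 : WithTop ℕ∞) ≤ ((⊤ : ℕ∞) : WithTop ℕ∞) :=
    WithTop.coe_le_coe.2 (le_top : (2 : ℕ∞) ≤ ⊤)
  have hφ2 : ContDiff ℝ 2 φ := hφ.of_le h2le
  have hχ2 : ∀ k, ContDiff ℝ 2 (χ k) := fun k => (hχ k).1.of_le h2le
  set e : ℕ → X n → ℝ := fun k x => φ x * χ k x with he
  have hes : ∀ k, ContDiff ℝ ((⊤ : ℕ∞) : WithTop ℕ∞) (e k) := fun k => hφ.mul (hχ k).1
  have he2 : ∀ k, ContDiff ℝ 2 (e k) := fun k => (hes k).of_le h2le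
  have hec : ∀ k, HasCompactSupport (e k) := fun k => (hχ k).2.1.mul_left
  have hlap : ∀ k x, lap (e k) x = lap φ x * χ k x + 2 * ∑ i, pd i φ x * pd i (χ k) x +
      φ x * lap (χ k) x := fun k x => (hPROD n φ (χ k) hφ2 (hχ2 k)).1 x
  set D : ℝ := C * (1 + 3 * n * |K|) with hD
  have hb1 : ∀ k x, |e k x| ≤ C * gk σ (x - x0) := by
    intro k x
    have := (hχ k).2.2.1 x
    simp only [he, abs_mul, abs_of_nonneg this.1]
    calc |φ x| * χ k x ≤ |φ x| * 1 := mul_le_mul_of_nonneg_left this.2 (abs_nonneg _)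
      _ ≤ C * gk σ (x - x0) := by rw [mul_one]; exact h1 x
  have hb2 : ∀ k x, |lap (e k) x| ≤ D * gk σ (x - x0) := by
    intro k x
    have hg0 : 0 ≤ gk σ (x - x0) := (hgp _).le
    have hCg : 0 ≤ C * gk σ (x - x0) := mul_nonneg hC hg0
    have c0 := (hχ k).2.2.1 x
    have c1 : |lap φ x * χ k x| ≤ C * gk σ (x - x0) := by
      rw [abs_mul, abs_of_nonneg c0.1]
      calc |lap φ x| * χ k x ≤ |lap φ x| * 1 := mul_le_mul_of_nonneg_left c0.2 (abs_nonneg _)
        _ ≤ C * gk σ (x - x0) := by rw [mul_one]; exact h2 x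
    have c2 : |∑ i, pd i φ x * pd i (χ k) x| ≤ n * (C * gk σ (x - x0) * |K|) := by
      refine (Finset.abs_sum_le_sum_abs _ _).trans ?_
      refine (Finset.sum_le_sum (g := fun _ => C * gk σ (x - x0) * |K|) fun i _ => ?_).trans ?_
      · rw [abs_mul]
        exact mul_le_mul (h3 x i) (((hχ k).2.2.2.2.1 x i).1.trans (le_abs_self K)) (abs_nonneg _) hCg
      · simp
    have c3 : |lap (χ k) x| ≤ n * |K| := by
      unfold lap
      refine (Finset.abs_sum_le_sum_abs _ _).trans ?_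
      refine (Finset.sum_le_sum (g := fun _ => |K|) fun i _ => ?_).trans ?_
      · exact ((hχ k).2.2.2.2.1 x i).2.trans (le_abs_self K)
      · simp
    have c4 : |φ x * lap (χ k) x| ≤ C * gk σ (x - x0) * (n * |K|) := by
      rw [abs_mul]
      exact mul_le_mul (h1 x) c3 (abs_nonneg _) hCg
    rw [hlap k x]
    calc |lap φ x * χ k x + 2 * ∑ i, pd i φ x * pd i (χ k) x + φ x * lap (χ k) x|
        ≤ |lap φ x * χ k x| + |2 * ∑ i, pd i φ x * pd i (χ k) x| + |φ x * lap (χ k) x| :=
          abs_add_three _ _ _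
      _ ≤ C * gk σ (x - x0) + 2 * (n * (C * gk σ (x - x0) * |K|)) +
          C * gk σ (x - x0) * (n * |K|) := by
          rw [abs_mul 2, abs_two]
          linarith [c1, c2, c4]
      _ = D * gk σ (x - x0) := by rw [hD]; ring
  -- pointwise eventual equality
  have hev1 : ∀ x, ∀ᶠ k : ℕ in atTop, e k x = φ x := by
    intro x
    obtain ⟨k0, hk0⟩ := exists_nat_gt ‖x‖
    filter_upwards [eventually_ge_atTop k0] with k hk
    have : ‖x‖ ≤ k := hk0.le.trans (by exact_mod_cast hk)
    simp only [he, (hχ k).2.2.2.1 x this, mul_one]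
  have hev2 : ∀ x, ∀ᶠ k : ℕ in atTop, lap (e k) x = lap φ x := by
    intro x
    obtain ⟨k0, hk0⟩ := exists_nat_gt ‖x‖
    filter_upwards [eventually_ge_atTop k0] with k hk
    have hlt : ‖x‖ < k := hk0.trans_le (by exact_mod_cast hk)
    have z := (hχ k).2.2.2.2.2 x hlt
    rw [hlap k x, (hχ k).2.2.2.1 x hlt.le]
    have z1 : ∑ i, pd i φ x * pd i (χ k) x = 0 :=
      Finset.sum_eq_zero fun i _ => by rw [(z i).1, mul_zero]
    have z2 : lap (χ k) x = 0 := Finset.sum_eq_zero fun i _ => (z i).2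
    rw [z1, z2]; ring
  have hlapc : ∀ k, Continuous fun x => lap (e k) x := fun k => lap_cont hPROD (he2 k)
  obtain ⟨M, hM⟩ := h.bdd t
  -- limits
  have L1 : Tendsto (fun k => ∫ x, v x t * e k x) atTop (𝓝 (∫ x, v x t * φ x)) := by
    refine tendsto_integral_of_dominated_convergence (fun x => |M| * (C * gk σ (x - x0))) ?_ ?_ ?_ ?_
    · intro k
      exact ((cont_x h.cont ht).mul (hes k).continuous).aestronglyMeasurable
    · exact (hgi.const_mul C).const_mul |M|
    · intro k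
      refine Eventually.of_forall fun x => ?_
      rw [Real.norm_eq_abs, abs_mul]
      exact mul_le_mul ((hM x t ⟨ht, le_rfl⟩).trans (le_abs_self M)) (hb1 k x) (abs_nonneg _)
        (abs_nonneg _)
    · refine Eventually.of_forall fun x => ?_
      refine tendsto_const_nhds.congr' ?_
      filter_upwards [hev1 x] with k hk
      rw [hk]
  have L2 : Tendsto (fun k => ∫ x, a x * e k x) atTop (𝓝 (∫ x, a x * φ x)) := by
    refine tendsto_integral_of_dominated_convergence (fun x => C * (a x * gk σ (x - x0))) ?_ ?_ ?_ ?_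
    · intro k
      exact (h.acont.mul (hes k).continuous).aestronglyMeasurable
    · exact (ha σ hσ).const_mul C
    · intro k
      refine Eventually.of_forall fun x => ?_
      rw [Real.norm_eq_abs, abs_mul, abs_of_nonneg (h.apos x)]
      calc a x * |e k x| ≤ a x * (C * gk σ (x - x0)) :=
            mul_le_mul_of_nonneg_left (hb1 k x) (h.apos x)
        _ = C * (a x * gk σ (x - x0)) := by ring
    · refine Eventually.of_forall fun x => ?_
      refine tendsto_const_nhds.congr' ?_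
      filter_upwards [hev1 x] with k hk
      rw [hk]
  have L3 : ∀ τ ∈ Icc 0 t, Tendsto (fun k => ∫ x, v x τ * lap (e k) x) atTop
      (𝓝 (∫ x, v x τ * lap φ x)) := by
    intro τ hτ
    refine tendsto_integral_of_dominated_convergence (fun x => |M| * (D * gk σ (x - x0))) ?_ ?_ ?_ ?_
    · intro k
      exact ((cont_x h.cont hτ.1).mul (hlapc k)).aestronglyMeasurable
    · exact (hgi.const_mul D).const_mul |M|
    · intro k
      refine Eventually.of_forall fun x => ?_
      rw [Real.norm_eq_abs, abs_mul]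
      exact mul_le_mul ((hM x τ hτ).trans (le_abs_self M)) (hb2 k x) (abs_nonneg _)
        (abs_nonneg _)
    · refine Eventually.of_forall fun x => ?_
      refine tendsto_const_nhds.congr' ?_
      filter_upwards [hev2 x] with k hk
      rw [hk]
  have hbnd : ∀ k, ∀ τ ∈ Icc 0 t, |∫ x, v x τ * lap (e k) x| ≤
      ∫ x, |M| * (D * gk σ (x - x0)) := by
    intro k τ hτ
    rw [← Real.norm_eq_abs]
    refine norm_integral_le_of_norm_le ((hgi.const_mul D).const_mul |M|)
      (Eventually.of_forall fun x => ?_)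
    rw [Real.norm_eq_abs, abs_mul]
    exact mul_le_mul ((hM x τ hτ).trans (le_abs_self M)) (hb2 k x) (abs_nonneg _)
      (abs_nonneg _)
  have L4 : Tendsto (fun k => ∫ τ in (0 : ℝ)..t, Real.sin (t - τ) * ∫ x, v x τ * lap (e k) x) atTop
      (𝓝 (∫ τ in (0 : ℝ)..t, Real.sin (t - τ) * ∫ x, v x τ * lap φ x)) := by
    refine intervalIntegral.tendsto_integral_filter_of_dominated_convergence
      (fun _ => ∫ x, |M| * (D * gk σ (x - x0))) ?_ ?_ ?_ ?_
    · refine Eventually.of_forall fun k => ?_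
      rw [uIoc_of_le ht]
      have hc : ContinuousOn (fun τ => Real.sin (t - τ) * ∫ x, v x τ * lap (e k) x) (Icc 0 t) :=
        (by fun_prop : Continuous fun τ : ℝ => Real.sin (t - τ)).continuousOn.mul
          (cont_int hBD h x0 (hlapc k) hσ (hb2 k) t)
      exact (hc.mono Ioc_subset_Icc_self).aestronglyMeasurable measurableSet_Ioc
    · refine Eventually.of_forall fun k => Eventually.of_forall fun τ hτ => ?_
      rw [uIoc_of_le ht] at hτ
      rw [Real.norm_eq_abs, abs_mul]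
      calc |Real.sin (t - τ)| * |∫ x, v x τ * lap (e k) x|
          ≤ 1 * ∫ x, |M| * (D * gk σ (x - x0)) :=
            mul_le_mul (Real.abs_sin_le_one _) (hbnd k τ ⟨hτ.1.le, hτ.2⟩) (abs_nonneg _) zero_le_one
        _ = _ := one_mul _
    · exact intervalIntegrable_const
    · refine Eventually.of_forall fun τ hτ => ?_
      rw [uIoc_of_le ht] at hτ
      exact (L3 τ ⟨hτ.1.le, hτ.2⟩).const_mul _
  have L5 : Tendsto (fun k => ∫ x, v x t * e k x) atTop (𝓝 ((∫ x, a x * φ x) * Real.sin t -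
      ∫ τ in (0 : ℝ)..t, Real.sin (t - τ) * ∫ x, v x τ * lap φ x)) := by
    refine ((L2.mul_const (Real.sin t)).sub L4).congr fun k => ?_
    exact (h.duh (e k) (hes k) (hec k) t ht).symm
  exact tendsto_nhds_unique L1 L5

/-- splitting of complex integrals -/
theorem split_v (hBD : S_BD) {v : X n → ℝ → ℝ} {a : X n → ℝ} (h : WS n v a) (x0 : X n)
    {g : X n → ℂ} (hg1 : Continuous fun x => (g x).re) (hg2 : Continuous fun x => (g x).im)
    {D σ : ℝ} (hσ : 0 < σ)
    (hb : ∀ x, ‖g x‖ ≤ D * gk σ (x - x0)) {τ : ℝ} (hτ : 0 ≤ τ) :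
    ∫ x, (v x τ : ℂ) * g x = ((∫ x, v x τ * (g x).re : ℝ) : ℂ) +
      ((∫ x, v x τ * (g x).im : ℝ) : ℂ) * Complex.I := by
  have i1 := integrable_v hBD h x0 hg1 hσ (fun x => (Complex.abs_re_le_norm _).trans (hb x)) hτ
  have i2 := integrable_v hBD h x0 hg2 hσ (fun x => (Complex.abs_im_le_norm _).trans (hb x)) hτ
  rw [← integral_complex_ofReal, ← integral_complex_ofReal, ← integral_mul_const, ← integral_add]
  · refine integral_congr_ae (Eventually.of_forall fun x => ?_)
    apply Complex.ext <;> simp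
  · exact i1.ofReal
  · exact i2.ofReal.mul_const _

theorem split_a (hBD : S_BD) {v : X n → ℝ → ℝ} {a : X n → ℝ} (h : WS n v a) (x0 : X n)
    (ha : ∀ s : ℝ, 0 < s → Integrable fun x => a x * gk s (x - x0))
    {g : X n → ℂ} (hg1 : Continuous fun x => (g x).re) (hg2 : Continuous fun x => (g x).im)
    {D σ : ℝ} (hσ : 0 < σ)
    (hb : ∀ x, ‖g x‖ ≤ D * gk σ (x - x0)) :
    ∫ x, (a x : ℂ) * g x = ((∫ x, a x * (g x).re : ℝ) : ℂ) +
      ((∫ x, a x * (g x).im : ℝ) : ℂ) * Complex.I := by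
  have i1 := integrable_a hBD h x0 ha hg1 hσ (fun x => (Complex.abs_re_le_norm _).trans (hb x))
  have i2 := integrable_a hBD h x0 ha hg2 hσ (fun x => (Complex.abs_im_le_norm _).trans (hb x))
  rw [← integral_complex_ofReal, ← integral_complex_ofReal, ← integral_mul_const, ← integral_add]
  · refine integral_congr_ae (Eventually.of_forall fun x => ?_)
    apply Complex.ext <;> simp
  · exact i1.ofReal
  · exact i2.ofReal.mul_const _

/-- part LIM2 -/
theorem t : S_LIM2 := by
  intro hLAPG hCUT hPROD hBD n v a h x0 ha z hz t ht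
  obtain ⟨hsm, C, σ, hσ, hbd⟩ := hLAPG n z hz
  obtain ⟨hre, him, hlap⟩ := hsm x0
  have h2le : (2 : WithTop ℕ∞) ≤ ((⊤ : ℕ∞) : WithTop ℕ∞) :=
    WithTop.coe_le_coe.2 (le_top : (2 : ℕ∞) ≤ ⊤)
  have hre2 : ContDiff ℝ 2 fun x : X n => (hk z (x - x0)).re := hre.of_le h2le
  have him2 : ContDiff ℝ 2 fun x : X n => (hk z (x - x0)).im := him.of_le h2le
  have hdre : Continuous fun x => (dhk z (x - x0)).re := by
    have := lap_cont hPROD hre2
    exact this.congr fun x => (hlap x).1
  have hdim : Continuous fun x => (dhk z (x - x0)).im := by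
    have := lap_cont hPROD him2
    exact this.congr fun x => (hlap x).2
  have b1 : ∀ x, ‖hk z (x - x0)‖ ≤ C * gk σ (x - x0) := fun x => (hbd x0 x).1
  have b2 : ∀ x, ‖dhk z (x - x0)‖ ≤ C * gk σ (x - x0) := fun x => (hbd x0 x).2.1
  have R1 := real_duh hCUT hPROD hBD h x0 ha hre hσ
    (fun x => (Complex.abs_re_le_norm _).trans (b1 x))
    (fun x => by rw [(hlap x).1]; exact (Complex.abs_re_le_norm _).trans (b2 x))
    (fun x i => ((hbd x0 x).2.2 i).1) ht
  have R2 := real_duh hCUT hPROD hBD h x0 ha him hσ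
    (fun x => (Complex.abs_im_le_norm _).trans (b1 x))
    (fun x => by rw [(hlap x).2]; exact (Complex.abs_im_le_norm _).trans (b2 x))
    (fun x i => ((hbd x0 x).2.2 i).2) ht
  have c1 : ContinuousOn (fun τ => Real.sin (t - τ) * ∫ x, v x τ * (dhk z (x - x0)).re) (Icc 0 t) :=
    (by fun_prop : Continuous fun τ : ℝ => Real.sin (t - τ)).continuousOn.mul
      (cont_int hBD h x0 hdre hσ (fun x => (Complex.abs_re_le_norm _).trans (b2 x)) t)
  have c2 : ContinuousOn (fun τ => Real.sin (t - τ) * ∫ x, v x τ * (dhk z (x - x0)).im) (Icc 0 t) :=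
    (by fun_prop : Continuous fun τ : ℝ => Real.sin (t - τ)).continuousOn.mul
      (cont_int hBD h x0 hdim hσ (fun x => (Complex.abs_im_le_norm _).trans (b2 x)) t)
  have I1 : ∫ τ in (0 : ℝ)..t, (Real.sin (t - τ) : ℂ) * ∫ x, (v x τ : ℂ) * dhk z (x - x0) =
      ((∫ τ in (0 : ℝ)..t, Real.sin (t - τ) * ∫ x, v x τ * (dhk z (x - x0)).re : ℝ) : ℂ) +
      ((∫ τ in (0 : ℝ)..t, Real.sin (t - τ) * ∫ x, v x τ * (dhk z (x - x0)).im : ℝ) : ℂ) *
        Complex.I := by
    rw [← intervalIntegral.integral_ofReal, ← intervalIntegral.integral_ofReal,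
      ← intervalIntegral.integral_mul_const, ← intervalIntegral.integral_add]
    · refine intervalIntegral.integral_congr fun τ hτ => ?_
      rw [uIcc_of_le ht] at hτ
      beta_reduce
      rw [split_v hBD h x0 hdre hdim hσ b2 hτ.1]
      push_cast
      ring
    · rw [intervalIntegrable_iff_integrableOn_Icc_of_le ht]
      exact (c1.integrableOn_Icc).ofReal
    · rw [intervalIntegrable_iff_integrableOn_Icc_of_le ht]
      exact (c2.integrableOn_Icc).ofReal.mul_const _
  rw [I1, split_v hBD h x0 hre.continuous him.continuous hσ b1 ht,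
    split_a hBD h x0 ha hre.continuous him.continuous hσ b1, R1, R2]
  simp only [(hlap _).1, (hlap _).2]
  push_cast
  ring

end Pool.Agent.X31.HS.LIM2
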